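import Pool.Agent.Q169.CW.Final

/-!
# Excited random walks with nonnegative drifts are ballistic if and only if `δ > 2`

`ν` is the law of one stack of cookies `s : ℕ → ℝ`; the number `s i` is the probability of a step to
the right on the visit number `i + 1`. The stacks at the sites of `ℤ` are independent with law `ν`
(the environment `w : ℤ → ℕ → ℝ` has the law `Measure.infinitePi fun _ : ℤ => ν`). No bound on the
number of cookies is assumed.

The excited random walk is described by its averaged law: the probability that it follows the path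
`x 0 = 0, x 1, ..., x n` is the expectation, over the environment, of the product of the step
probabilities (`IsERW`). The drift parameter is `δ = 𝔼 ∑ (2 s i - 1) ∈ [0, ∞]` (`drift`).

Theorem: if `1 / 2 ≤ s i ≤ 1` for all `i`, almost surely (POS), and `s i < 1` for all `i` with
positive probability (WEL; the other half of this condition follows from POS), and if
`X n / n → v` almost surely, then `v = 0` if `δ ≤ 2`, and `v > 0` if `δ > 2`, including `δ = ∞`.

The proof uses the chain of the numbers of down-steps between neighbouring sites before the walk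
hits `k`. For `δ > 2` its second moments have a negative drift. For `δ ≤ 2` a quadratic function,
flattened near zero and linearised at a level `a`, has a nonnegative drift up to small errors, so
that the mean occupation measure above `a` is at least `c / a`, for all `a`; this is not compatible
with a finite mean, that is, with hitting `k` in a time of order `k`.
-/

namespace Pool.Agent.Results.MP_7ca543_pr.BallisticityCriterion

open MeasureTheory Filter Topology Finset
open scoped ENNReal

/-- The number of visits of the path `x` to the site `x n` before time `n`. -/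
def visits (x : ℕ → ℤ) (n : ℕ) : ℕ := ((range n).filter fun j => x j = x n).card

/-- The probability, in the environment `w`, of the step of the path `x` at time `j`. -/
noncomputable def stepProb (w : ℤ → ℕ → ℝ) (x : ℕ → ℤ) (j : ℕ) : ℝ :=
  if x (j + 1) = x j + 1 then w (x j) (visits x j)
  else if x (j + 1) = x j - 1 then 1 - w (x j) (visits x j) else 0

/-- The process `X` is an excited random walk, started at `0`, in an environment of independent
stacks with law `ν` (averaged law). -/
structure IsERW {Ω : Type*} [MeasurableSpace Ω] (ν : Measure (ℕ → ℝ)) [IsProbabilityMeasure ν]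
    (P : Measure Ω) (X : ℕ → Ω → ℤ) : Prop where
  meas : ∀ n, Measurable (X n)
  law : ∀ (n : ℕ) (x : ℕ → ℤ), x 0 = 0 → P {ω | ∀ j ≤ n, X j ω = x j} =
    ∫⁻ w, ∏ j ∈ range n, ENNReal.ofReal (stepProb w x j) ∂(Measure.infinitePi fun _ : ℤ => ν)

/-- The drift parameter `δ`. -/
noncomputable def drift (ν : Measure (ℕ → ℝ)) : ℝ≥0∞ :=
  ∫⁻ s, ∑' i, ENNReal.ofReal (2 * s i - 1) ∂ν

/-- **The ballisticity criterion for excited random walks with nonnegative drifts**, together with
the existence of the walk. -/
theorem result (ν : Measure (ℕ → ℝ)) [IsProbabilityMeasure ν]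
    (hPOS : ∀ᵐ s ∂ν, ∀ i, 1 / 2 ≤ s i ∧ s i ≤ 1) (hWEL : 0 < ν {s | ∀ i, s i < 1}) :
    (∃ (Ω : Type) (_ : MeasurableSpace Ω) (P : Measure Ω) (_ : IsProbabilityMeasure P)
      (X : ℕ → Ω → ℤ), IsERW ν P X) ∧
    ∀ {Ω : Type*} [MeasurableSpace Ω] (P : Measure Ω) [IsProbabilityMeasure P] (X : ℕ → Ω → ℤ),
      IsERW ν P X → ∀ v : ℝ, (∀ᵐ ω ∂P, Tendsto (fun n : ℕ => (X n ω : ℝ) / n) atTop (𝓝 v)) →
        (drift ν ≤ 2 → v = 0) ∧ (2 < drift ν → 0 < v) := by
  have hA : ∀ᵐ s ∂ν, Q169.CW.Adm s := hPOS
  refine ⟨⟨_, _, Q169.CW.PP ν, inferInstance, fun n ω => Q169.CW.pos (Q169.CW.af ω) n, ?_⟩, ?_⟩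
  · have h := Q169.CW.isERW_coins ν hA
    exact ⟨h.meas, h.law⟩
  · intro Ω _ P _ X hX v hv
    have hX' : Q169.CW.IsERW ν P X := ⟨hX.meas, hX.law⟩
    exact ⟨fun hd => Q169.CW.speed_zero ν hA hWEL hX' hd hv,
      fun hd => Q169.CW.speed_pos ν hA hX' hd hv⟩

end Pool.Agent.Results.MP_7ca543_pr.BallisticityCriterion
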